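import Mathlib
import Pool.Agent.ASE.Face2

/-!
# A universal BPBp-ASE domain which is not uniformly convex

Over `𝕂 = ℝ` and `𝕂 = ℂ`: the space `𝕂³` with the norm
`N(x,y,z)² = sup_{0 ≤ s ≤ 1} ((1 - s²/2)|x|² + (1 + s)|y|² + 2 s² |z|²)`
is not strictly convex, and it is a universal BPBp-ASE domain.
-/

set_option autoImplicit false

open Pool.Agent.ASE

namespace Pool.Agent.Results.MP_78fc4b_an.NotUniformlyConvex

universe u

/-- For `𝕂 = ℝ` and `𝕂 = ℂ` there is a Banach space `X` over `𝕂` which is not uniformly convex and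
such that `(X, Z)` has the BPBp-ASE for every Banach space `Z` over `𝕂`. -/
theorem result (𝕂 : Type) [RCLike 𝕂] :
    ∃ (X : Type) (_ : NormedAddCommGroup X) (_ : NormedSpace 𝕂 X) (_ : CompleteSpace X),
      ¬ IsUniformlyConvex X ∧
      ∀ (Z : Type u) [NormedAddCommGroup Z] [NormedSpace 𝕂 Z] [CompleteSpace Z],
        BPBpASE 𝕂 X Z :=
  ⟨Xsp 𝕂, inferInstance, inferInstance, FiniteDimensional.complete 𝕂 (Xsp 𝕂),
    not_uniformlyConvex, fun _ _ _ _ => bpbpASE_of_good good_all⟩

end Pool.Agent.Results.MP_78fc4b_an.NotUniformlyConvex
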